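import Pool.Agent.Lib.MP_7f5033_co.Final

/-!
# The outer multiset dimension of every torus `C_s □ C_t`
-/

set_option autoImplicit false

open SimpleGraph Pool.Agent.Lib.MP_7f5033_co

namespace Pool.Agent.Results.MP_7f5033_co.TorusOdim

/-- For all `s, t ≥ 3` the outer multiset dimension of the torus `C_s □ C_t` equals the explicit
function `torusOdim s t`. -/
theorem result : ∀ s t : ℕ, 3 ≤ s → 3 ≤ t →
    odim (cycleGraph s □ cycleGraph t) = torusOdim s t :=
  fun s t hs ht => main s t hs ht

end Pool.Agent.Results.MP_7f5033_co.TorusOdim
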